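import Pool.Agent.H11.HM.Ops

set_option autoImplicit false

open MeasureTheory Filter Topology

namespace H11.HM

open _root_.HM

theorem ae_Ioc : ∀ᵐ x ∂mu, x ∈ Set.Ioc (0 : ℝ) 1 := by
  unfold mu
  rw [← restrict_Ioc_eq_restrict_Icc]
  exact ae_restrict_mem measurableSet_Ioc

theorem hardy_congr {f g : ℝ → ℂ} (h : f =ᵐ[mu] g) (x : ℝ) (hx : x ∈ Set.Ioc (0 : ℝ) 1) :
    hardyFun f x = hardyFun g x := by
  unfold hardyFun
  congr 1
  rw [intervalIntegral.integral_of_le hx.1.le, intervalIntegral.integral_of_le hx.1.le]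
  refine integral_congr_ae ?_
  unfold mu at h
  have hsub : Set.Ioc (0 : ℝ) x ⊆ Set.Icc (0 : ℝ) 1 := fun t ht => ⟨ht.1.le, ht.2.trans hx.2⟩
  exact ae_restrict_of_ae_restrict_of_subset hsub h

theorem hardy_mono_fun (k : ℕ) (x : ℝ) (hx : x ∈ Set.Ioc (0 : ℝ) 1) :
    hardyFun (fun x : ℝ => (x : ℂ) ^ k) x = (1 / ((k : ℂ) + 1)) * (x : ℂ) ^ k := by
  unfold hardyFun
  have h1 : ∫ t in (0 : ℝ)..x, (t : ℂ) ^ k = (((x ^ (k + 1) - 0 ^ (k + 1)) / (k + 1) : ℝ) : ℂ) := by
    rw [← integral_pow, ← intervalIntegral.integral_ofReal]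
    refine intervalIntegral.integral_congr fun t _ => ?_
    push_cast; rfl
  rw [h1]
  have hx0 : (x : ℂ) ≠ 0 := by exact_mod_cast hx.1.ne'
  have hk : ((k : ℂ) + 1) ≠ 0 := by exact_mod_cast (Nat.succ_ne_zero k)
  push_cast
  field_simp
  ring

variable {p : ENNReal} [Fact (1 ≤ p)]

theorem H_mono (H : LpI p →L[ℂ] LpI p) (hH : ∀ f : LpI p, (H f : ℝ → ℂ) =ᵐ[mu] hardyFun f) (k : ℕ) :
    H (mono p k) = (1 / ((k : ℂ) + 1)) • mono p k := by
  refine Lp.ext ?_
  filter_upwards [hH (mono p k), ae_Ioc, Lp.coeFn_smul (1 / ((k : ℂ) + 1)) (mono p k),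
    mono_ae p k] with x h1 h2 h3 h4
  rw [h1, h3, Pi.smul_apply, h4, hardy_congr (mono_ae p k) x h2, hardy_mono_fun k x h2, smul_eq_mul]

theorem H_pow_mono (H : LpI p →L[ℂ] LpI p) (hH : ∀ k, H (mono p k) = (1 / ((k : ℂ) + 1)) • mono p k)
    (n k : ℕ) : (H ^ n) (mono p k) = ((1 / ((k : ℂ) + 1)) ^ n) • mono p k := by
  induction n with
  | zero => simp
  | succ n ih =>
    rw [pow_succ, mul_apply_eq_comp, hH, map_smul, ih, smul_smul, pow_succ, mul_comm]

theorem int_Lp (f : LpI p) : Integrable (f : ℝ → ℂ) mu :=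
  (Lp.memLp f).integrable Fact.out

theorem l1_le (f : LpI p) : ∫ x, ‖f x‖ ∂mu ≤ ‖f‖ := by
  have hprob : IsProbabilityMeasure mu := ⟨mu_univ⟩
  have h1 : ∫ x, ‖f x‖ ∂mu = (eLpNorm f 1 mu).toReal := by
    rw [eLpNorm_one_eq_lintegral_enorm, integral_norm_eq_lintegral_enorm
      (Lp.aestronglyMeasurable f)]
  rw [h1, Lp.norm_def]
  exact ENNReal.toReal_mono (Lp.eLpNorm_ne_top f)
    (eLpNorm_le_eLpNorm_of_exponent_le Fact.out (Lp.aestronglyMeasurable f))

theorem ii_Lp (f : LpI p) (x : ℝ) (hx : x ∈ Set.Ioc (0 : ℝ) 1) :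
    IntervalIntegrable (f : ℝ → ℂ) volume 0 x := by
  rw [intervalIntegrable_iff_integrableOn_Ioc_of_le hx.1.le]
  have h := int_Lp f
  unfold mu at h
  exact IntegrableOn.mono_set h fun t ht => ⟨ht.1.le, ht.2.trans hx.2⟩

theorem hardy_sub (f g : LpI p) (x : ℝ) (hx : x ∈ Set.Ioc (0 : ℝ) 1) :
    ‖hardyFun f x - hardyFun g x‖ ≤ x⁻¹ * ‖f - g‖ := by
  have h1 : hardyFun f x - hardyFun g x = hardyFun (f - g : LpI p) x := by
    rw [hardy_congr (Lp.coeFn_sub f g) x hx]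
    unfold hardyFun
    rw [← mul_sub, ← intervalIntegral.integral_sub (ii_Lp f x hx) (ii_Lp g x hx)]
    rfl
  rw [h1]
  unfold hardyFun
  have hx0 : 0 < x := hx.1
  rw [norm_mul, norm_inv, Complex.norm_real, Real.norm_eq_abs, abs_of_pos hx0]
  refine mul_le_mul_of_nonneg_left ?_ (by positivity)
  refine (intervalIntegral.norm_integral_le_integral_norm hx0.le).trans ?_
  refine le_trans ?_ (l1_le (f - g))
  rw [intervalIntegral.integral_of_le hx0.le]
  unfold mu
  have hi := int_Lp (f - g)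
  unfold mu at hi
  exact setIntegral_mono_set hi.norm (ae_of_all _ fun _ => norm_nonneg _)
    (Filter.Eventually.of_forall fun t ht => ⟨ht.1.le, ht.2.trans hx.2⟩)

theorem hop_ae (hp : p < ⊤) (H : LpI p →L[ℂ] LpI p)
    (hH : ∀ k, H (mono p k) = (1 / ((k : ℂ) + 1)) • mono p k) (f : LpI p) :
    (H f : ℝ → ℂ) =ᵐ[mu] hardyFun f := by
  have hspan : ∀ q ∈ Submodule.span ℂ (Set.range (mono p)), (H q : ℝ → ℂ) =ᵐ[mu] hardyFun q := by
    intro q hq
    refine Submodule.span_induction (p := fun q _ => (H q : ℝ → ℂ) =ᵐ[mu] hardyFun q)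
      ?_ ?_ ?_ ?_ hq
    · rintro _ ⟨k, rfl⟩
      rw [hH k]
      filter_upwards [ae_Ioc, Lp.coeFn_smul (1 / ((k : ℂ) + 1)) (mono p k),
        mono_ae p k] with x h2 h3 h4
      rw [h3, Pi.smul_apply, h4, hardy_congr (mono_ae p k) x h2, hardy_mono_fun k x h2, smul_eq_mul]
    · rw [map_zero]
      filter_upwards [ae_Ioc, Lp.coeFn_zero ℂ p mu] with x h2 h3
      rw [h3, hardy_congr (Lp.coeFn_zero ℂ p mu) x h2]
      unfold hardyFun
      simp
    · intro u v _ _ hu hv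
      rw [map_add]
      filter_upwards [ae_Ioc, Lp.coeFn_add (H u) (H v), hu, hv] with x h2 h3 h4 h5
      rw [h3, Pi.add_apply, h4, h5, hardy_congr (Lp.coeFn_add u v) x h2]
      unfold hardyFun
      rw [← mul_add, ← intervalIntegral.integral_add (ii_Lp u x h2) (ii_Lp v x h2)]
      rfl
    · intro a u _ hu
      rw [map_smul]
      filter_upwards [ae_Ioc, Lp.coeFn_smul a (H u), hu] with x h2 h3 h4
      rw [h3, Pi.smul_apply, h4, hardy_congr (Lp.coeFn_smul a u) x h2]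
      unfold hardyFun
      have : ∫ t in (0 : ℝ)..x, (a • (u : ℝ → ℂ)) t = a * ∫ t in (0 : ℝ)..x, (u : ℝ → ℂ) t := by
        rw [← intervalIntegral.integral_const_mul]
        rfl
      rw [this, smul_eq_mul]
      ring
  obtain ⟨u, hu, hlim⟩ := mem_closure_iff_seq_limit.mp (dense_mono p hp f)
  have hHlim : Tendsto (fun j => H (u j)) atTop (𝓝 (H f)) := (H.continuous.tendsto f).comp hlim
  obtain ⟨ns, hns, hae⟩ := (tendstoInMeasure_of_tendsto_Lp hHlim).exists_seq_tendsto_ae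
  have hall : ∀ᵐ x ∂mu, ∀ j, (H (u j) : ℝ → ℂ) x = hardyFun (u j) x :=
    ae_all_iff.mpr fun j => hspan (u j) (hu j)
  filter_upwards [hae, hall, ae_Ioc] with x h1 h2 h3
  refine tendsto_nhds_unique h1 ?_
  have h4 : Tendsto (fun i => hardyFun (u (ns i)) x) atTop (𝓝 (hardyFun f x)) := by
    rw [tendsto_iff_norm_sub_tendsto_zero]
    have h5 : Tendsto (fun i => x⁻¹ * ‖u (ns i) - f‖) atTop (𝓝 0) := by
      have h6 := (tendsto_iff_norm_sub_tendsto_zero.mp hlim).comp hns.tendsto_atTop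
      have h7 := h6.const_mul x⁻¹
      rw [mul_zero] at h7
      exact h7
    exact squeeze_zero (fun _ => norm_nonneg _) (fun i => hardy_sub _ _ x h3) h5
  refine h4.congr fun i => ?_
  rw [h2]

theorem a_pos (h1 : 1 < p) (hp : p < ⊤) : 0 < 1 - 1 / p.toReal := by
  have h2 : 1 < p.toReal := by
    rw [← ENNReal.toReal_one]
    exact (ENNReal.toReal_lt_toReal ENNReal.one_ne_top hp.ne).mpr h1
  have : 1 / p.toReal < 1 := by
    rw [div_lt_one (by linarith)]; exact h2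
  linarith

theorem t_HOP (hTR : S_TR) (hA : S_AEC) : S_HOP := by
  intro p _ h1 hp
  obtain ⟨T, hT⟩ := hTR p hp
  have hc := t_SCO hA p hp T hT
  refine ⟨lap T hT hc (ContinuousLinearMap.id ℂ (LpI p)) 0 (1 - 1 / p.toReal) (a_pos h1 hp), ?_⟩
  intro f
  refine hop_ae hp _ ?_ f
  intro k
  rw [lap_mono T hT hc hA]
  simp

theorem t_HPW (hA : S_AEC) : S_HPW := by
  intro p _ h1 hp T H hT hc hH g f n
  have hk := H_mono H hH
  have heq : g.comp (H ^ (n + 1)) = lap T hT hc g n (1 - 1 / p.toReal) (a_pos h1 hp) := by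
    refine ContinuousLinearMap.ext_on (dense_mono p hp) ?_
    rintro _ ⟨k, rfl⟩
    rw [lap_mono T hT hc hA, ContinuousLinearMap.comp_apply, H_pow_mono H hk, map_smul]
  have h2 := congrArg (fun L : LpI p →L[ℂ] ℂ => L f) heq
  beta_reduce at h2
  rw [ContinuousLinearMap.comp_apply, lap_apply] at h2
  rw [h2]
  rfl

theorem exists_dual_vanish {X : Type} [NormedAddCommGroup X] [NormedSpace ℂ X]
    (M : Submodule ℂ X) (hM : IsClosed (M : Set X)) (f : X) (hf : f ∉ M) :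
    ∃ g : X →L[ℂ] ℂ, (∀ x ∈ M, g x = 0) ∧ g f ≠ 0 := by
  have hcl : IsClosed (M : Set X) := hM
  have hne : (M.mkQL f) ≠ 0 := by
    rw [Submodule.mkQL_apply, Submodule.mkQ_apply, Ne, Submodule.Quotient.mk_eq_zero]
    exact hf
  obtain ⟨g, hg⟩ := exists_dual_vector'' ℂ (M.mkQL f)
  refine ⟨g.comp M.mkQL, ?_, ?_⟩
  · intro x hx
    have : M.mkQL x = 0 := by
      rw [Submodule.mkQL_apply, Submodule.mkQ_apply, Submodule.Quotient.mk_eq_zero]
      exact hx
    rw [ContinuousLinearMap.comp_apply, this, map_zero]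
  · rw [ContinuousLinearMap.comp_apply, hg.2]
    have h1 : ‖M.mkQL f‖ ≠ 0 := norm_ne_zero_iff.mpr hne
    exact fun h => h1 (Complex.ofReal_eq_zero.mp h)

theorem t_RINV (hHOP : S_HOP) (hSCO : S_SCO) (hHPW : S_HPW) (hMOM : S_MOM) : S_RINV := by
  intro p _ h1 h2 T hT M hM hinv
  have hp : p < ⊤ := h2.trans (by simp)
  obtain ⟨H, hH⟩ := hHOP p h1 hp
  have hc := hSCO p hp T hT
  have hHM : ∀ f ∈ M, H f ∈ M := by
    intro f hf
    obtain ⟨g, hg, hg'⟩ := hinv f hf
    have : H f = g := Lp.ext ((hH f).trans hg'.symm)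
    rwa [this]
  have hpow : ∀ n, ∀ f ∈ M, (H ^ n) f ∈ M := by
    intro n
    induction n with
    | zero => intro f hf; simpa using hf
    | succ n ih =>
      intro f hf
      rw [pow_succ', mul_apply_eq_comp]
      exact hHM _ (ih f hf)
  have key : ∀ (g : LpI p →L[ℂ] ℂ) (f : LpI p), (∀ n : ℕ, g ((H ^ (n + 1)) f) = 0) →
      ∀ t, 0 ≤ t → g (T t f) = 0 := by
    intro g f hg
    refine hMOM (1 - 1 / p.toReal) (fun t => g (T t f)) (‖g‖ * ‖f‖) (a_pos h1 hp)
      (g.continuous.comp_continuousOn (hc f)) ?_ ?_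
    · intro t ht
      exact (g.le_opNorm _).trans (mul_le_mul_of_nonneg_left (hT t ht f).2 (norm_nonneg _))
    · intro n
      have h3 := hHPW p h1 hp T H hT hc hH g f n
      rw [hg n] at h3
      have h4 : ∀ t : ℝ, ((t ^ n * Real.exp (-((1 - 1 / p.toReal) * t)) : ℝ) : ℂ) * g (T t f) =
          (n.factorial : ℂ) * (((t ^ n / n.factorial * Real.exp (-((1 - 1 / p.toReal) * t)) : ℝ) : ℂ) *
            g (T t f)) := by
        intro t
        have : (n.factorial : ℂ) ≠ 0 := by exact_mod_cast n.factorial_ne_zero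
        push_cast
        field_simp
      simp_rw [h4]
      rw [integral_const_mul, ← h3, mul_zero]
  refine ⟨?_, ?_⟩
  · intro r hr f hf
    by_contra hcon
    obtain ⟨g, hg, hg'⟩ := exists_dual_vanish M hM _ hcon
    exact hg' (key g f (fun n => hg _ (hpow (n + 1) f hf)) r hr)
  · intro f hf
    by_contra hcon
    have hsub : ((M.map (H : LpI p →ₗ[ℂ] LpI p)).topologicalClosure : Set (LpI p)) ⊆
        closure (M ∩ {f : LpI p | ∃ f₁ : LpI p, (f : ℝ → ℂ) =ᵐ[mu] hardyFun f₁}) := by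
      rw [Submodule.topologicalClosure_coe]
      refine closure_mono ?_
      rintro _ ⟨u, hu, rfl⟩
      exact ⟨hHM u hu, u, hH u⟩
    obtain ⟨g, hg, hg'⟩ := exists_dual_vanish (M.map (H : LpI p →ₗ[ℂ] LpI p)).topologicalClosure
      (Submodule.isClosed_topologicalClosure _) f (fun h => hcon (hsub h))
    have h5 := key g f (fun n => hg _ (Submodule.le_topologicalClosure _ (by
      rw [pow_succ', mul_apply_eq_comp]
      exact ⟨(H ^ n) f, hpow n f hf, rfl⟩))) 0 le_rfl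
    have h6 : T 0 f = f := by
      refine Lp.ext ?_
      filter_upwards [(hT 0 le_rfl f).1] with x hx
      rw [hx]
      unfold tfun
      simp
    rw [h6] at h5
    exact hg' h5

end H11.HM
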