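import Pool.Agent.H67.HM.Stm

set_option autoImplicit false

open MeasureTheory Filter Topology

namespace H11.HM

open _root_.HM

instance mu_fin : IsFiniteMeasure mu := by
  unfold mu
  infer_instance

theorem mu_univ : mu Set.univ = 1 := by
  unfold mu
  simp

variable (p : ENNReal) [Fact (1 ≤ p)]

theorem memLp_mono (k : ℕ) : MemLp (fun x : ℝ => (x : ℂ) ^ k) p mu := by
  refine MemLp.of_bound (by fun_prop) 1 ?_
  unfold mu
  filter_upwards [ae_restrict_mem measurableSet_Icc] with x hx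
  rw [norm_pow, Complex.norm_real, Real.norm_eq_abs, abs_of_nonneg hx.1]
  exact pow_le_one₀ hx.1 hx.2

/-- the class of `x^k` -/
noncomputable def mono (k : ℕ) : LpI p := (memLp_mono p k).toLp _

theorem mono_ae (k : ℕ) : (mono p k : ℝ → ℂ) =ᵐ[mu] fun x : ℝ => (x : ℂ) ^ k :=
  (memLp_mono p k).coeFn_toLp

theorem span_ae (P : Polynomial ℂ) : ∃ g ∈ Submodule.span ℂ (Set.range (mono p)),
    (g : ℝ → ℂ) =ᵐ[mu] fun x : ℝ => P.eval (x : ℂ) := by
  induction P using Polynomial.induction_on' with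
  | add P Q hP hQ =>
    obtain ⟨g, hg, hg'⟩ := hP
    obtain ⟨h, hh, hh'⟩ := hQ
    refine ⟨g + h, Submodule.add_mem _ hg hh, ?_⟩
    filter_upwards [Lp.coeFn_add g h, hg', hh'] with x h1 h2 h3
    rw [h1, Pi.add_apply, h2, h3, Polynomial.eval_add]
  | monomial n a =>
    refine ⟨a • mono p n, Submodule.smul_mem _ _ (Submodule.subset_span ⟨n, rfl⟩), ?_⟩
    filter_upwards [Lp.coeFn_smul a (mono p n), mono_ae p n] with x h1 h2
    rw [h1, Pi.smul_apply, h2, Polynomial.eval_monomial, smul_eq_mul]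

theorem dense_mono (hp : p < ⊤) : Dense (Submodule.span ℂ (Set.range (mono p)) : Set (LpI p)) := by
  have hreg : mu.WeaklyRegular := by unfold mu; infer_instance
  have hd := BoundedContinuousFunction.toLp_denseRange (α := ℝ) (E := ℂ) (𝕜 := ℂ) (μ := mu)
    (p := p) hp.ne
  intro f
  have hsub : Set.range (BoundedContinuousFunction.toLp p mu ℂ : (BoundedContinuousFunction ℝ ℂ) →L[ℂ] LpI p) ⊆
      closure (Submodule.span ℂ (Set.range (mono p)) : Set (LpI p)) := by
    rintro _ ⟨h, rfl⟩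
    rw [Metric.mem_closure_iff]
    intro ε hε
    have hre : ContinuousOn (fun x : ℝ => (h x).re) (Set.Icc 0 1) :=
      (Complex.continuous_re.comp h.continuous).continuousOn
    have him : ContinuousOn (fun x : ℝ => (h x).im) (Set.Icc 0 1) :=
      (Complex.continuous_im.comp h.continuous).continuousOn
    obtain ⟨P, hP⟩ := exists_polynomial_near_of_continuousOn 0 1 _ hre (ε / 4) (by positivity)
    obtain ⟨Q, hQ⟩ := exists_polynomial_near_of_continuousOn 0 1 _ him (ε / 4) (by positivity)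
    obtain ⟨g, hg, hg'⟩ := span_ae p (P.map (algebraMap ℝ ℂ) +
      Polynomial.C Complex.I * Q.map (algebraMap ℝ ℂ))
    refine ⟨g, hg, ?_⟩
    rw [dist_eq_norm]
    have hb : ‖BoundedContinuousFunction.toLp p mu ℂ h - g‖ ≤
        measureUnivNNReal mu ^ p.toReal⁻¹ * (ε / 2) := by
      refine Lp.norm_le_of_ae_bound (by positivity) ?_
      have hIcc : ∀ᵐ x ∂mu, x ∈ Set.Icc (0 : ℝ) 1 := by
        unfold mu; exact ae_restrict_mem measurableSet_Icc
      filter_upwards [Lp.coeFn_sub (BoundedContinuousFunction.toLp p mu ℂ h) g, hg',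
        BoundedContinuousFunction.coeFn_toLp mu ℂ h (p := p), hIcc] with x h1 h2 h3 h4
      rw [h1, Pi.sub_apply, h2, h3]
      have e1 : (P.map (algebraMap ℝ ℂ)).eval (x : ℂ) = ((P.eval x : ℝ) : ℂ) := by
        rw [Polynomial.eval_map_algebraMap, ← Complex.coe_algebraMap,
          Polynomial.aeval_algebraMap_apply]
        simp
      have e2 : (Q.map (algebraMap ℝ ℂ)).eval (x : ℂ) = ((Q.eval x : ℝ) : ℂ) := by
        rw [Polynomial.eval_map_algebraMap, ← Complex.coe_algebraMap,
          Polynomial.aeval_algebraMap_apply]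
        simp
      rw [Polynomial.eval_add, Polynomial.eval_mul, Polynomial.eval_C, e1, e2]
      have e3 : h x - (((P.eval x : ℝ) : ℂ) + Complex.I * ((Q.eval x : ℝ) : ℂ)) =
          -(((P.eval x - (h x).re : ℝ) : ℂ)) + -(Complex.I * ((Q.eval x - (h x).im : ℝ) : ℂ)) := by
        conv_lhs => rw [← Complex.re_add_im (h x)]
        push_cast
        ring
      rw [e3]
      refine (norm_add_le _ _).trans ?_
      rw [norm_neg, norm_neg, norm_mul, Complex.norm_I, one_mul, Complex.norm_real,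
        Complex.norm_real, Real.norm_eq_abs, Real.norm_eq_abs]
      have := hP x h4
      have := hQ x h4
      linarith
    have hone : measureUnivNNReal mu = 1 := by
      unfold measureUnivNNReal
      rw [mu_univ]; simp
    rw [hone] at hb
    simp at hb
    linarith
  have := closure_minimal hsub isClosed_closure
  exact this (hd f)

variable {p}

/-- dilation of `x^k` -/
theorem T_mono (T : ℝ → LpI p →L[ℂ] LpI p) (hT : ∀ r, 0 ≤ r → ∀ f : LpI p,
    (T r f : ℝ → ℂ) =ᵐ[mu] tfun p r f ∧ ‖T r f‖ ≤ ‖f‖) (hA : S_AEC) (r : ℝ) (hr : 0 ≤ r) (k : ℕ) :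
    T r (mono p k) = ((Real.exp (-(r / p.toReal) - r * k) : ℝ) : ℂ) • mono p k := by
  refine Lp.ext ?_
  filter_upwards [(hT r hr (mono p k)).1, hA p r _ _ hr (mono_ae p k),
    Lp.coeFn_smul ((Real.exp (-(r / p.toReal) - r * k) : ℝ) : ℂ) (mono p k), mono_ae p k]
    with x h1 h2 h3 h4
  rw [h1, h2, h3, Pi.smul_apply, h4]
  unfold tfun
  beta_reduce
  rw [smul_eq_mul, Complex.ofReal_mul, mul_pow, ← mul_assoc]
  congr 1
  rw [← Complex.ofReal_pow, ← Complex.ofReal_mul, ← Real.exp_nat_mul, ← Real.exp_add]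
  congr 2
  ring

end H11.HM
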