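import Pool.Agent.H11.HM.Mono

set_option autoImplicit false

open MeasureTheory Filter Topology

namespace H11.HM

open _root_.HM

theorem t_SCO (hA : S_AEC) : S_SCO := by
  intro p _ hp T hT f
  refine continuousOn_of_uniform_approx_of_continuousOn ?_
  intro u hu
  obtain ⟨ε, hε, hu⟩ := Metric.mem_uniformity_dist.mp hu
  have hd := dense_mono p hp f
  rw [Metric.mem_closure_iff] at hd
  obtain ⟨g, hg, hgd⟩ := hd ε hε
  refine ⟨fun r => T r g, ?_, ?_⟩
  · refine Submodule.span_induction (p := fun g _ => ContinuousOn (fun r => T r g) (Set.Ici 0))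
      ?_ ?_ ?_ ?_ hg
    · rintro _ ⟨k, rfl⟩
      have hc : ContinuousOn (fun r : ℝ => ((Real.exp (-(r / p.toReal) - r * k) : ℝ) : ℂ) • mono p k)
          (Set.Ici 0) := by
        apply Continuous.continuousOn
        fun_prop
      refine hc.congr ?_
      intro r hr
      exact T_mono T hT hA r hr k
    · simpa using continuousOn_const
    · intro x y _ _ hx hy
      simp only [map_add]
      exact hx.add hy
    · intro a x _ hx
      simp only [map_smul]
      exact hx.const_smul a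
  · intro r hr
    apply hu
    rw [dist_eq_norm, ← map_sub]
    refine lt_of_le_of_lt (hT r hr _).2 ?_
    rwa [← dist_eq_norm]

/-! weights -/

theorem int_W (n : ℕ) (c : ℝ) (hc : 0 < c) :
    ∫ t in Set.Ioi (0 : ℝ), t ^ n / n.factorial * Real.exp (-(c * t)) = (1 / c) ^ (n + 1) := by
  have h := Real.integral_rpow_mul_exp_neg_mul_Ioi (a := n + 1) (r := c) (by positivity) hc
  have h1 : ∀ t : ℝ, t ^ n / n.factorial * Real.exp (-(c * t)) =
      (t ^ n * Real.exp (-(c * t))) * ((n.factorial : ℝ))⁻¹ := by intro t; ring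
  simp_rw [h1]
  rw [integral_mul_const]
  have h2 : ∫ t in Set.Ioi (0 : ℝ), t ^ n * Real.exp (-(c * t)) =
      (1 / c) ^ ((n : ℝ) + 1) * Real.Gamma (n + 1) := by
    rw [← h]
    refine setIntegral_congr_fun measurableSet_Ioi fun t _ => ?_
    simp
  rw [h2, Real.Gamma_nat_eq_factorial]
  have h3 : (1 / c) ^ ((n : ℝ) + 1) = (1 / c) ^ (n + 1) := by
    have : ((n : ℝ) + 1) = ((n + 1 : ℕ) : ℝ) := by push_cast; ring
    rw [this, Real.rpow_natCast]
  rw [h3]
  have : (n.factorial : ℝ) ≠ 0 := by positivity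
  field_simp

theorem integrable_W (n : ℕ) (c : ℝ) (hc : 0 < c) :
    IntegrableOn (fun t : ℝ => t ^ n / n.factorial * Real.exp (-(c * t))) (Set.Ioi 0) := by
  by_contra h
  have h1 := int_W n c hc
  rw [integral_undef h] at h1
  have : 0 < (1 / c) ^ (n + 1) := by positivity
  linarith

variable {p : ENNReal} [Fact (1 ≤ p)]

theorem meas_gT {E : Type} [NormedAddCommGroup E] (T : ℝ → LpI p →L[ℂ] LpI p)
    (hc : ∀ f : LpI p, ContinuousOn (fun r => T r f) (Set.Ici 0)) (f : LpI p)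
    (g : LpI p → E) (hg : Continuous g) :
    AEStronglyMeasurable (fun t => g (T t f)) (volume.restrict (Set.Ioi (0 : ℝ))) :=
  ContinuousOn.aestronglyMeasurable ((hg.comp_continuousOn (hc f)).mono Set.Ioi_subset_Ici_self)
    measurableSet_Ioi

theorem integrable_gT (T : ℝ → LpI p →L[ℂ] LpI p) (hT : ∀ r, 0 ≤ r → ∀ f : LpI p,
    (T r f : ℝ → ℂ) =ᵐ[mu] tfun p r f ∧ ‖T r f‖ ≤ ‖f‖)
    (hc : ∀ f : LpI p, ContinuousOn (fun r => T r f) (Set.Ici 0)) (f : LpI p)
    {E : Type} [NormedAddCommGroup E] [NormedSpace ℂ E]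
    (g : LpI p →L[ℂ] E) (n : ℕ) (c : ℝ) (hc0 : 0 < c) :
    IntegrableOn (fun t : ℝ => ((t ^ n / n.factorial * Real.exp (-(c * t)) : ℝ) : ℂ) • g (T t f))
      (Set.Ioi 0) := by
  refine Integrable.mono' ((integrable_W n c hc0).mul_const (‖g‖ * ‖f‖)) ?_ ?_
  · refine AEStronglyMeasurable.smul ?_ (meas_gT T hc f g g.continuous)
    exact (by fun_prop : Continuous fun t : ℝ =>
      ((t ^ n / n.factorial * Real.exp (-(c * t)) : ℝ) : ℂ)).aestronglyMeasurable
  · filter_upwards [ae_restrict_mem measurableSet_Ioi] with t ht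
    have ht' : (0 : ℝ) < t := ht
    rw [norm_smul, Complex.norm_real, Real.norm_eq_abs, abs_of_nonneg (by positivity)]
    refine mul_le_mul_of_nonneg_left ?_ (by positivity)
    exact (g.le_opNorm _).trans (mul_le_mul_of_nonneg_left (hT t ht'.le f).2 (norm_nonneg _))

/-- the Laplace integral as an operator -/
noncomputable def lap (T : ℝ → LpI p →L[ℂ] LpI p) (hT : ∀ r, 0 ≤ r → ∀ f : LpI p,
    (T r f : ℝ → ℂ) =ᵐ[mu] tfun p r f ∧ ‖T r f‖ ≤ ‖f‖)
    (hc : ∀ f : LpI p, ContinuousOn (fun r => T r f) (Set.Ici 0))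
    {E : Type} [NormedAddCommGroup E] [NormedSpace ℂ E]
    (g : LpI p →L[ℂ] E) (n : ℕ) (c : ℝ) (hc0 : 0 < c) : LpI p →L[ℂ] E :=
  LinearMap.mkContinuous
    { toFun := fun f => ∫ t in Set.Ioi (0 : ℝ),
        ((t ^ n / n.factorial * Real.exp (-(c * t)) : ℝ) : ℂ) • g (T t f)
      map_add' := by
        intro f h
        rw [← integral_add (integrable_gT T hT hc f g n c hc0) (integrable_gT T hT hc h g n c hc0)]
        refine integral_congr_ae (ae_of_all _ fun t => ?_)
        simp only [map_add, smul_add]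
      map_smul' := by
        intro a f
        rw [RingHom.id_apply, ← integral_smul]
        refine integral_congr_ae (ae_of_all _ fun t => ?_)
        simp only [map_smul]
        rw [smul_comm] }
    ((1 / c) ^ (n + 1) * ‖g‖) (by
      intro f
      rw [← int_W n c hc0]
      refine (norm_integral_le_integral_norm _).trans ?_
      rw [mul_assoc, ← integral_mul_const]
      refine integral_mono_of_nonneg (ae_of_all _ fun t => norm_nonneg _)
        ((integrable_W n c hc0).mul_const _) ?_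
      filter_upwards [ae_restrict_mem measurableSet_Ioi] with t ht
      have ht' : (0 : ℝ) < t := ht
      rw [norm_smul, Complex.norm_real, Real.norm_eq_abs, abs_of_nonneg (by positivity)]
      refine mul_le_mul_of_nonneg_left ?_ (by positivity)
      exact (g.le_opNorm _).trans (mul_le_mul_of_nonneg_left (hT t ht'.le f).2 (norm_nonneg _)))

theorem lap_apply (T : ℝ → LpI p →L[ℂ] LpI p) (hT : ∀ r, 0 ≤ r → ∀ f : LpI p,
    (T r f : ℝ → ℂ) =ᵐ[mu] tfun p r f ∧ ‖T r f‖ ≤ ‖f‖)
    (hc : ∀ f : LpI p, ContinuousOn (fun r => T r f) (Set.Ici 0))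
    {E : Type} [NormedAddCommGroup E] [NormedSpace ℂ E]
    (g : LpI p →L[ℂ] E) (n : ℕ) (c : ℝ) (hc0 : 0 < c) (f : LpI p) :
    lap T hT hc g n c hc0 f = ∫ t in Set.Ioi (0 : ℝ),
        ((t ^ n / n.factorial * Real.exp (-(c * t)) : ℝ) : ℂ) • g (T t f) := rfl

theorem lap_mono (T : ℝ → LpI p →L[ℂ] LpI p) (hT : ∀ r, 0 ≤ r → ∀ f : LpI p,
    (T r f : ℝ → ℂ) =ᵐ[mu] tfun p r f ∧ ‖T r f‖ ≤ ‖f‖)
    (hc : ∀ f : LpI p, ContinuousOn (fun r => T r f) (Set.Ici 0)) (hA : S_AEC)
    {E : Type} [NormedAddCommGroup E] [NormedSpace ℂ E] [CompleteSpace E]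
    (g : LpI p →L[ℂ] E) (n : ℕ) (hc0 : 0 < 1 - 1 / p.toReal) (k : ℕ) :
    lap T hT hc g n (1 - 1 / p.toReal) hc0 (mono p k) = ((1 / ((k : ℂ) + 1)) ^ (n + 1)) • g (mono p k) := by
  rw [lap_apply]
  have h1 : ∫ t in Set.Ioi (0 : ℝ), ((t ^ n / n.factorial *
      Real.exp (-((1 - 1 / p.toReal) * t)) : ℝ) : ℂ) • g (T t (mono p k)) =
      ∫ t in Set.Ioi (0 : ℝ), ((t ^ n / n.factorial *
      Real.exp (-(((k : ℝ) + 1) * t)) : ℝ) : ℂ) • g (mono p k) := by
    refine setIntegral_congr_fun measurableSet_Ioi fun t ht => ?_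
    have ht' : (0 : ℝ) < t := ht
    rw [T_mono T hT hA t ht'.le k, map_smul, smul_smul, ← Complex.ofReal_mul, mul_assoc,
      ← Real.exp_add]
    congr 4
    ring
  rw [h1, integral_smul_const, integral_complex_ofReal, int_W n _ (by positivity)]
  push_cast
  rfl

end H11.HM
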